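import Pool.Agent.W_448ev_h61.EvG
import Pool.Agent.W_448cp_h96.CA

/-!
# Verified evaluator for up-sets of strips (MP_448cb3_co, S7, window 4, block BF)
-/

namespace Pool.Agent.GaussPoset.Win.Ev

set_option linter.unusedSectionVars false

open Finset

universe u

variable {P : Type u} [Fintype P] [PartialOrder P] [DecidableEq P] {r i j : ℕ}
variable {C : Finset P} {t : P} {lo hi : ℕ → ℕ} {e : ℕ → ℕ → P}

/-- a part `C` of the strip with the rows `los`, `his` from level `base` on; the window is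
`base + s` -/
structure LocS (P : Type u) [Fintype P] [PartialOrder P] [DecidableEq P] (r j : ℕ) (t : P)
    (lo hi : ℕ → ℕ) (e : ℕ → ℕ → P) (C : Finset P) (i base R s : ℕ) (los his : List ℕ) :
    Prop where
  H : Gr P r
  hc : Cp.Comp j t lo hi e
  part : Part i C
  sub : ∀ z ∈ C, z ≤ t ∧ lev z < base + R
  row : ∀ k, k < R → lo (base + k) ≤ los.getD k 0 ∧ his.getD k 0 ≤ hi (base + k)
  mem : ∀ k a, k < R → lo (base + k) ≤ a → a ≤ hi (base + k) →
    (e (base + k) a ∈ C ↔ los.getD k 0 ≤ a ∧ a ≤ his.getD k 0)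
  hi' : i = base + s
  hs : s < R
  hj : base + R ≤ j + 1

section loc

variable {base R s : ℕ} {los his : List ℕ}

theorem LocS.hir (Lc : LocS P r j t lo hi e C i base R s los his) : i ≤ r := by
  have h1 := Lc.hi'
  have h2 := Lc.hs
  have h3 := Lc.hj
  have h4 := Lc.hc.lev_e i (lo i) (by omega) le_rfl (Lc.hc.lo_le i (by omega))
  have h5 := Lc.H.hr (e i (lo i))
  omega

/-- the part in the rows -/
noncomputable def SC' (C : Finset P) (base : ℕ) : Finset P := by
  classical
  exact C.filter (fun z => base ≤ lev z)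

lemma mem_SC' {base : ℕ} {z : P} : z ∈ SC' C base ↔ z ∈ C ∧ base ≤ lev z := by
  classical
  unfold SC'
  rw [mem_filter]

/-- the element of a code -/
def pte (e : ℕ → ℕ → P) (base : ℕ) (c : ℕ) : P := e (base + c / 32) (c % 32)

lemma LocS.pt_spec (Lc : LocS P r j t lo hi e C i base R s los his) {c : ℕ}
    (h : inR los his R (c / 32) (c % 32) = true) :
    lev (pte e base c) = base + c / 32 ∧ pte e base c ∈ C ∧
      lo (base + c / 32) ≤ c % 32 ∧ c % 32 ≤ hi (base + c / 32) ∧ c / 32 < R := by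
  rw [inR_iff] at h
  obtain ⟨h1, h2, h3⟩ := h
  have e1 := Lc.row _ h1
  have hj := Lc.hj
  have h4 : lo (base + c / 32) ≤ c % 32 := by omega
  have h5 : c % 32 ≤ hi (base + c / 32) := by omega
  exact ⟨Lc.hc.lev_e _ _ (by omega) h4 h5, (Lc.mem _ _ h1 h4 h5).2 ⟨h2, h3⟩, h4, h5, h1⟩

/-- the code of an element -/
lemma LocS.code (Lc : LocS P r j t lo hi e C i base R s los his) {z : P} (hz : z ∈ C)
    (hb : base ≤ lev z) : ∃ a, lo (lev z) ≤ a ∧ a ≤ hi (lev z) ∧ e (lev z) a = z ∧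
      los.getD (lev z - base) 0 ≤ a ∧ a ≤ his.getD (lev z - base) 0 ∧ lev z - base < R := by
  obtain ⟨h1, h2⟩ := Lc.sub z hz
  have hj := Lc.hj
  obtain ⟨a, h3, h4, h5⟩ := Lc.hc.surj z h1 (by omega)
  have e3 : base + (lev z - base) = lev z := by omega
  have h6 := Lc.mem (lev z - base) a (by omega) (by rw [e3]; exact h3) (by rw [e3]; exact h4)
  rw [e3, h5] at h6
  have h7 := h6.1 hz
  exact ⟨a, h3, h4, h5, h7.1, h7.2, by omega⟩

/-- the chart -/
theorem LocS.chart (Lc : LocS P r j t lo hi e C i base R s los his) {p : Prog}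
    (hok : okP los his R s p = true) :
    Chart i C (SC' C base) (pte e base) (asgs p).toFinset := by
  classical
  unfold okP at hok
  simp only [Bool.and_eq_true] at hok
  obtain ⟨⟨⟨⟨⟨⟨⟨o1, o2⟩, o3⟩, o4⟩, o5⟩, o6⟩, o7⟩, o8⟩ := hok
  have hin : ∀ c ∈ (asgs p).toFinset, inR los his R (c / 32) (c % 32) = true := by
    intro c hc
    exact List.all_eq_true.1 o5 c (List.mem_toFinset.1 hc)
  have hj := Lc.hj
  have hi' := Lc.hi'
  have hs := Lc.hs
  refine ⟨?_, ?_, ?_, ?_, ?_, ?_, ?_⟩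
  · intro z hz
    exact (mem_SC'.1 hz).1
  · intro z hz
    rw [mem_st] at hz
    rw [mem_SC']
    exact ⟨hz.1, by omega⟩
  · intro z hz hiz y hy
    rw [mem_SC'] at hz ⊢
    have hl := (Lc.H.covBy_iff.1 hy).2
    exact ⟨Lc.part.up hz.1 hy, by omega⟩
  · intro z hz hiz y hy
    rw [mem_SC'] at hz ⊢
    have hl := (Lc.H.covBy_iff.1 hy).2
    exact ⟨Lc.part.dn hz.1 hiz hy, by omega⟩
  · intro c hc
    obtain ⟨h1, h2, h3, h4, h5⟩ := Lc.pt_spec (hin c hc)
    rw [mem_SC']
    exact ⟨h2, by omega⟩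
  · intro c hc d hd hcd
    obtain ⟨h1, h2, h3, h4, h5⟩ := Lc.pt_spec (hin c hc)
    obtain ⟨g1, g2, g3, g4, g5⟩ := Lc.pt_spec (hin d hd)
    have e1 : c / 32 = d / 32 := by
      rw [hcd] at h1
      omega
    unfold pte at hcd
    rw [← e1] at g3 g4 hcd
    have := Lc.hc.inj _ _ _ (by omega) h3 h4 g3 g4 hcd
    omega
  · intro z hz
    rw [mem_SC'] at hz
    obtain ⟨a, h1, h2, h3, h4, h5, hk⟩ := Lc.code hz.1 hz.2
    have e3 : base + (lev z - base) = lev z := by omega
    have h6 : his.getD (lev z - base) 0 ≤ 30 := by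
      have := List.all_eq_true.1 o7 _ (List.mem_range.2 hk)
      rwa [Nat.ble_eq] at this
    have h7 : a < 32 := by omega
    refine ⟨cd (lev z - base) a, ?_, ?_⟩
    · rw [List.mem_toFinset]
      have h6 := List.all_eq_true.1 o6 _ (List.mem_range.2 hk)
      exact List.contains_iff_mem.1 (List.all_eq_true.1 h6 _ (mem_rowN.2 ⟨by omega, by omega⟩))
    · unfold pte
      rw [cd_div h7, cd_mod h7, e3]
      exact h3

lemma LocS.nbD_dnN (Lc : LocS P r j t lo hi e C i base R s los his) {p : Prog}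
    (hok : okP los his R s p = true) {c : ℕ} (hc : inR los his R (c / 32) (c % 32) = true) :
    nbD (SC' C base) (pte e base) (asgs p).toFinset c (dnN los his R (c / 32) (c % 32)) := by
  classical
  unfold okP at hok
  simp only [Bool.and_eq_true] at hok
  obtain ⟨⟨⟨⟨⟨⟨⟨o1, o2⟩, o3⟩, o4⟩, o5⟩, o6⟩, o7⟩, o8⟩ := hok
  obtain ⟨h1, h2, h3, h4, h5⟩ := Lc.pt_spec hc
  have hj := Lc.hj
  constructor
  · intro y hy
    obtain ⟨a', rfl, ha', hin⟩ := mem_dnN.1 hy
    rw [inR_iff] at hin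
    have h6 : his.getD (c / 32 + 1) 0 ≤ 30 := by
      have := List.all_eq_true.1 o7 _ (List.mem_range.2 hin.1)
      rwa [Nat.ble_eq] at this
    have h7 : a' < 32 := by omega
    have e1 := Lc.row _ hin.1
    constructor
    · rw [List.mem_toFinset]
      have h6 := List.all_eq_true.1 o6 _ (List.mem_range.2 hin.1)
      exact List.contains_iff_mem.1 (List.all_eq_true.1 h6 _ (mem_rowN.2 ⟨by omega, by omega⟩))
    · unfold pte
      rw [cd_div h7, cd_mod h7, ← Nat.add_assoc]
      refine (Lc.hc.cov _ _ _ (by omega) ?_ ?_ h3 h4).2 ?_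
      · rw [← Nat.add_assoc] at e1; omega
      · rw [← Nat.add_assoc] at e1; omega
      · omega
  · intro z hz hzc
    rw [mem_SC'] at hz
    have hl := (Lc.H.covBy_iff.1 hzc).2
    rw [h1] at hl
    obtain ⟨a, g1, g2, g3, g4, g5, g6⟩ := Lc.code hz.1 hz.2
    have e0 : lev z = base + c / 32 + 1 := hl
    have e0' : lev z - base = c / 32 + 1 := by omega
    rw [e0'] at g4 g5 g6
    rw [e0] at g1 g2 g3
    rw [← g3] at hzc
    unfold pte at hzc
    have g7 := (Lc.hc.cov _ _ _ (by omega) g1 g2 h3 h4).1 hzc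
    have h6 : his.getD (c / 32 + 1) 0 ≤ 30 := by
      have := List.all_eq_true.1 o7 _ (List.mem_range.2 g6)
      rwa [Nat.ble_eq] at this
    have h7 : a < 32 := by omega
    refine ⟨cd (c / 32 + 1) a, mem_dnN.2 ⟨a, rfl, by omega,
      inR_iff.2 ⟨g6, by omega, by omega⟩⟩, ?_⟩
    unfold pte
    rw [cd_div h7, cd_mod h7, ← Nat.add_assoc]
    exact g3

lemma LocS.nbU_upN (Lc : LocS P r j t lo hi e C i base R s los his) {p : Prog}
    (hok : okP los his R s p = true) {c : ℕ} (hc : inR los his R (c / 32) (c % 32) = true) :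
    nbU (SC' C base) (pte e base) (asgs p).toFinset c (upN los his (c / 32) (c % 32)) := by
  classical
  unfold okP at hok
  simp only [Bool.and_eq_true] at hok
  obtain ⟨⟨⟨⟨⟨⟨⟨o1, o2⟩, o3⟩, o4⟩, o5⟩, o6⟩, o7⟩, o8⟩ := hok
  obtain ⟨h1, h2, h3, h4, h5⟩ := Lc.pt_spec hc
  have hj := Lc.hj
  constructor
  · intro y hy
    obtain ⟨r', a', hr', rfl, ha', hlo, hhi⟩ := mem_upN.1 hy
    have hk : r' < R := by omega
    have h6 : his.getD r' 0 ≤ 30 := by
      have := List.all_eq_true.1 o7 _ (List.mem_range.2 hk)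
      rwa [Nat.ble_eq] at this
    have h7 : a' < 32 := by omega
    have e1 := Lc.row _ hk
    constructor
    · rw [List.mem_toFinset]
      have h6 := List.all_eq_true.1 o6 _ (List.mem_range.2 hk)
      exact List.contains_iff_mem.1 (List.all_eq_true.1 h6 _ (mem_rowN.2 ⟨by omega, by omega⟩))
    · unfold pte
      rw [cd_div h7, cd_mod h7]
      rw [hr', ← Nat.add_assoc] at h3 h4 ⊢
      refine (Lc.hc.cov _ _ _ (by omega) h3 h4 ?_ ?_).2 ?_
      · omega
      · omega
      · omega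
  · intro z hz hzc
    rw [mem_SC'] at hz
    have hl := (Lc.H.covBy_iff.1 hzc).2
    rw [h1] at hl
    obtain ⟨r', hr'⟩ : ∃ r', c / 32 = r' + 1 := ⟨c / 32 - 1, by omega⟩
    have hk : r' < R := by omega
    have e0 : lev z = base + r' := by omega
    have e0' : lev z - base = r' := by omega
    obtain ⟨a, g1, g2, g3, g4, g5, g6⟩ := Lc.code hz.1 hz.2
    rw [e0'] at g4 g5 g6
    rw [e0] at g1 g2 g3
    rw [← g3] at hzc
    unfold pte at hzc
    rw [hr', ← Nat.add_assoc] at h3 h4 hzc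
    have g7 := (Lc.hc.cov _ _ _ (by omega) h3 h4 g1 g2).1 hzc
    have h6 : his.getD r' 0 ≤ 30 := by
      have := List.all_eq_true.1 o7 _ (List.mem_range.2 hk)
      rwa [Nat.ble_eq] at this
    have h7 : a < 32 := by omega
    refine ⟨cd r' a, mem_upN.2 ⟨r', a, hr', rfl, by omega, by omega, by omega⟩, ?_⟩
    unfold pte
    rw [cd_div h7, cd_mod h7]
    exact g3

/-- the program fits -/
theorem LocS.fits (Lc : LocS P r j t lo hi e C i base R s los his) {p0 : Prog}
    (hok : okP los his R s p0 = true) : ∀ p : Prog, okS los his R s p = true →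
    (∀ c ∈ chks p, c ∈ asgs p0) → fits i (SC' C base) (pte e base) (asgs p0).toFinset p := by
  classical
  have hi' := Lc.hi'
  intro p
  induction p with
  | nil => intro _ _; trivial
  | asg x' lb caps p ih => intro h1 h2; exact ih h1 h2
  | skp xs k q p _ ih => intro h1 h2; exact ih h1 h2
  | site c dl ul p ih =>
    intro h1 h2
    simp only [okS, Bool.and_eq_true] at h1
    obtain ⟨⟨⟨⟨g1, g2⟩, g3⟩, g4⟩, g5⟩ := h1
    have h3 := Lc.pt_spec g2
    have h4 := Nat.eq_of_beq_eq_true g1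
    refine ⟨⟨List.mem_toFinset.2 (h2 c (by rw [chks]; simp)), by omega, ?_, ?_⟩,
      ih g5 fun d hd => h2 d (by rw [chks]; exact List.mem_cons_of_mem _ hd)⟩
    · rw [of_decide_eq_true g3]; exact Lc.nbD_dnN hok g2
    · rw [of_decide_eq_true g4]; exact Lc.nbU_upN hok g2
  | low c dl ul p ih =>
    intro h1 h2
    simp only [okS, Bool.and_eq_true] at h1
    obtain ⟨⟨⟨⟨g1, g2⟩, g3⟩, g4⟩, g5⟩ := h1
    have h3 := Lc.pt_spec g2
    have h4 := Nat.le_of_ble_eq_true g1
    refine ⟨⟨List.mem_toFinset.2 (h2 c (by rw [chks]; simp)), by omega, ?_, ?_⟩,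
      ih g5 fun d hd => h2 d (by rw [chks]; exact List.mem_cons_of_mem _ hd)⟩
    · rw [of_decide_eq_true g3]; exact Lc.nbD_dnN hok g2
    · rw [of_decide_eq_true g4]; exact Lc.nbU_upN hok g2
  | upp c dl ul p ih =>
    intro h1 h2
    simp only [okS, Bool.and_eq_true] at h1
    obtain ⟨⟨⟨⟨g1, g2⟩, g3⟩, g4⟩, g5⟩ := h1
    have h3 := Lc.pt_spec g2
    have h4 := Nat.le_of_ble_eq_true g1
    refine ⟨⟨List.mem_toFinset.2 (h2 c (by rw [chks]; simp)), by omega, ?_, ?_⟩,
      ih g5 fun d hd => h2 d (by rw [chks]; exact List.mem_cons_of_mem _ hd)⟩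
    · rw [of_decide_eq_true g3]; exact Lc.nbU_upN hok g2
    · rw [of_decide_eq_true g4]; exact Lc.nbD_dnN hok g2

/-- EVALUATION OF AN UP-SET OF A STRIP -/
theorem LocS.eval (Lc : LocS P r j t lo hi e C i base R s los his) {p : Prog}
    (hok : okP los his R s p = true) (h0 : lb0 p = true) {m n : ℕ} (hm : m ≤ 2) (hn : n < 32)
    (htop : base = 0 ∨ n ≤ s) :
    PowerSeries.coeff m (ZC i C n : A) = ev m p 0 n 0 0 0 := by
  classical
  have hch := Lc.chart hok
  have hok0 := hok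
  unfold okP at hok
  simp only [Bool.and_eq_true] at hok
  obtain ⟨⟨⟨⟨⟨⟨⟨o1, o2⟩, o3⟩, o4⟩, o5⟩, o6⟩, o7⟩, o8⟩ := hok
  have hperm : (chks p).Perm (asgs p) := of_decide_eq_true o4
  rw [ev_chart Lc.H Lc.hir Lc.part hch hm o1 o2 hn
    (Lc.fits hok0 p o3 fun c hc => hperm.subset hc) rfl hperm (of_decide_eq_true o8)]
  congr 1
  unfold ZC
  have hSC : SC' C base ⊆ C := fun z hz => (mem_SC'.1 hz).1
  have hsub : (SC' C base).piAntidiag n ⊆ C.piAntidiag n := by
    intro f hf
    rw [mem_piAntidiag] at hf ⊢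
    refine ⟨?_, fun z hz => hSC (hf.2 z hz)⟩
    rw [← hf.1]
    symm
    refine sum_subset hSC fun z _ hz => ?_
    by_contra h
    exact hz (hf.2 z h)
  rw [← sum_subset hsub]
  · refine Finset.sum_congr rfl fun f _ => ?_
    rw [if_pos (lbs_of_lb0 p h0)]
  · intro f hf hfs
    by_contra hne
    apply hfs
    rw [mem_piAntidiag] at hf ⊢
    have hsum : ∑ y, f y = n := by
      rw [← hf.1]
      symm
      refine sum_subset (subset_univ _) fun z _ hz => ?_
      by_contra h
      exact hz (hf.2 z h)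
    have hin : ∀ z, f z ≠ 0 → z ∈ SC' C base := by
      intro z hz
      have hzC := hf.2 z hz
      have hi' := Lc.hi'
      rw [mem_SC']
      refine ⟨hzC, ?_⟩
      by_contra h
      rcases htop with h2 | h2
      · omega
      · exact hz (far_zero Lc.H Lc.hir hne hsum.le (Or.inr (by omega)))
    refine ⟨?_, hin⟩
    rw [← hf.1]
    refine sum_subset hSC fun z _ hz => ?_
    by_contra h
    exact hz (hin z h)

/-- order two from the two lowest coefficients -/
theorem LocS.dvd (Lc : LocS P r j t lo hi e C i base R s los his) {p : Prog}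
    (hok : okP los his R s p = true) (h0 : lb0 p = true) {n : ℕ} (hn : n < 32)
    (htop : base = 0 ∨ n ≤ s) (v0 : ev 0 p 0 n 0 0 0 = 0) (v1 : ev 1 p 0 n 0 0 0 = 0) :
    dd ^ 2 ∣ ZC i C n := by
  unfold dd
  rw [PowerSeries.X_pow_dvd_iff]
  intro m hm
  have h1 := Lc.eval hok h0 (m := m) (by omega) hn htop
  have : m = 0 ∨ m = 1 := by omega
  rcases this with rfl | rfl
  · exact h1.trans v0
  · exact h1.trans v1

end loc

end Pool.Agent.GaussPoset.Win.Ev
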