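import Pool.Agent.W_448bf_h61.BA

/-! Values for block BF (MP_448cb3_co, S7, window 4): kernel evaluation. -/

namespace Pool.Agent.GaussPoset.Win.Ev

set_option maxRecDepth 100000

/-- orders two up to the energy `N` -/
noncomputable def zer (los his : List ℕ) (R s N : ℕ) : Bool :=
  okP los his R s (mk los his R s) && lb0 (mk los his R s) &&
  (List.range (N + 1)).all (fun n => decide (ev 0 (mk los his R s) 0 n 0 0 0 = 0) &&
    decide (ev 1 (mk los his R s) 0 n 0 0 0 = 0))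

theorem z14 : zer [0, 0, 0, 1, 2, 2, 3, 3, 3, 4, 5, 5] [0, 1, 1, 2, 3, 4, 4, 4, 4, 5, 5, 5] 12 8 8 = true := by
  decide +kernel

theorem z15 : zer [3, 3, 3, 4, 5, 5, 5] [4, 4, 4, 5, 5, 5, 5] 7 3 3 = true := by decide +kernel

theorem zL1 : zer [2, 2, 3, 3, 3, 5] [3, 4, 4, 4, 4, 5] 6 2 2 = true := by decide +kernel

theorem zL0 : zer [0, 0, 0, 0, 1, 2, 2, 3, 3, 4, 5] [0, 0, 1, 1, 2, 3, 4, 4, 4, 4, 5] 11 7 7 = true := by
  decide +kernel

theorem zL0' : zer [2, 3, 3, 4, 5] [4, 4, 4, 4, 5] 5 2 2 = true := by decide +kernel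

end Pool.Agent.GaussPoset.Win.Ev
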