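import Pool.Agent.W_448bf_h61.BB
import Pool.Agent.W_448ec_h63.EJ
import Pool.Agent.W_448fc_h67.FcB
import Pool.Agent.W_448s8f_h61.TB

/-!
From the evaluator to the window sums `Z`, and the decomposition of `ZB` with several bounds
(MP_448cb3_co, S7, window 4, block BF).
-/

namespace Pool.Agent.GaussPoset

set_option linter.unusedSectionVars false

open Polynomial Finset

/-- divisibility of an integer polynomial from its image -/
theorem dvd_of_ev {p : ℤ[X]} {b : ℕ} (h : Win.dd ^ b ∣ Win.ev p) : (1 + X : ℤ[X]) ^ b ∣ p := by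
  have h1 : ∀ q : ℤ[X], Win.ev q = ((q.comp (X - 1) : ℤ[X]) : PowerSeries ℤ) := by
    intro q
    have h2 : Win.ev = (Polynomial.coeToPowerSeries.ringHom (R := ℤ)).comp
        (Polynomial.compRingHom (X - 1 : ℤ[X])) := by
      apply Polynomial.ringHom_ext
      · intro a
        unfold Win.ev
        simp
      · rw [Win.ev_X]
        simp only [RingHom.comp_apply, Polynomial.coe_compRingHom_apply, Polynomial.X_comp]
        unfold Win.xx Win.dd
        simp
    rw [h2]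
    rfl
  rw [h1] at h
  unfold Win.dd at h
  rw [PowerSeries.X_pow_dvd_iff] at h
  have h3 : (X : ℤ[X]) ^ b ∣ p.comp (X - 1) := by
    rw [Polynomial.X_pow_dvd_iff]
    intro d hd
    have := h d hd
    rwa [Polynomial.coeff_coe] at this
  obtain ⟨w, hw⟩ := h3
  refine ⟨w.comp (X + 1), ?_⟩
  have h4 : (p.comp (X - 1)).comp (X + 1) = p := by
    rw [Polynomial.comp_assoc, Polynomial.sub_comp, Polynomial.X_comp, Polynomial.one_comp,
      add_sub_cancel_right, Polynomial.comp_X]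
  rw [← h4, hw, Polynomial.mul_comp, Polynomial.pow_comp, Polynomial.X_comp, add_comm (1 : ℤ[X])]

universe u

variable {P : Type u} [Fintype P] [PartialOrder P] [DecidableEq P] {r i : ℕ}

/-- from the parts to the window sums of the subposets -/
theorem dvd_Z_of_ZC (H : Gr P r) (hi : i ≤ r) {C : Finset P} (hC : Win.Part i C) {n b : ℕ}
    (h : Win.dd ^ b ∣ Win.ZC i C n) : (1 + X : ℤ[X]) ^ b ∣ Z {x // x ∈ C} i n := by
  apply dvd_of_ev
  have h1 := ZC_PQ H hi hC n
  have h2 : ∀ a : ℕ, Win.xx ^ a * Win.xi ^ a = 1 := by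
    intro a
    rw [← mul_pow, Win.xx_mul_xi, one_pow]
  generalize Win.ZC i C n = z at h h1
  generalize nOut i C = a1 at h1
  generalize below P i = a2 at h1
  have h3 : Win.ev (Z {x // x ∈ C} i n) = Win.xi ^ a1 * Win.xx ^ a2 * z := by
    rw [h1]
    have e1 := h2 a1
    have e2 := h2 a2
    calc Win.ev (Z {x // x ∈ C} i n) =
        (Win.xx ^ a1 * Win.xi ^ a1) * (Win.xx ^ a2 * Win.xi ^ a2) *
          Win.ev (Z {x // x ∈ C} i n) := by rw [e1, e2, one_mul, one_mul]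
      _ = _ := by ring
  rw [h3]
  exact Dvd.dvd.mul_left h _

section Dec

variable {Q : Type u} [Fintype Q] [PartialOrder Q] [DecidableEq Q]

/-- one piece of a constrained sum -/
lemma SC_pieceB (i k : ℕ) {B : Q → ℕ} (hB : ∀ x, B x ≤ k) {L : Finset Q}
    (hL : ∀ x y, x ≤ y → x ∈ L → y ∈ L) (n : ℕ) :
    SC (fun (e : Q → ℕ) F => Cst i ∅ 0 B e F ∧ upL i k e F = L) n = ∑ ab ∈ antidiagonal n,
      ZB (P := {x // x ∈ L}) i ∅ 0 (fun _ => k) ab.1 * SC (fun e F => Lw i k L e F ∧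
        ∀ x : {x : Q // x ∉ L}, (B x : ℤ) ≤ (e x : ℤ) - ((i - lev (x : Q) : ℕ) : ℤ)) ab.2 := by
  have h2 := SC_prod (fun x => x ∈ L) (fun (e : Q → ℕ) F => Cst i ∅ 0 B e F ∧ upL i k e F = L)
    (Cst i ∅ 0 (fun _ => k)) (fun e F => Lw i k L e F ∧
        ∀ x : {x : Q // x ∉ L}, (B x : ℤ) ≤ (e x : ℤ) - ((i - lev (x : Q) : ℕ) : ℤ))
    (fun e F => ?_) n
  · rw [h2]
    refine Finset.sum_congr rfl fun ab _ => ?_
    have h4 : ZB (P := {x // x ∈ L}) i ∅ 0 (fun _ => k) ab.1 =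
        @SC {x // x ∈ L} (Subtype.fintype fun x => x ∈ L) _ (Cst i ∅ 0 fun _ => k) ab.1 :=
      SC_inst _ _ _ _
    rw [h4]
  · rw [← and_assoc, ← upL_split hL e F, cst_empty_iff]
    constructor
    · rintro ⟨⟨h1, h2⟩, h3⟩
      refine ⟨⟨h1, h3⟩, fun x => ?_⟩
      have h4 : ∀ y ∈ F, y ∈ L := by
        intro y hy
        rw [← h3, mem_upL]
        exact Or.inl hy
      exact h2 x fun h => x.2 (h4 _ h)
    · rintro ⟨⟨h1, h3⟩, h2⟩
      refine ⟨⟨h1, fun x hx => ?_⟩, h3⟩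
      by_cases hxL : x ∈ L
      · rw [← h3, mem_upL] at hxL
        have h4 := hxL.resolve_left hx
        have h5 : (B x : ℤ) ≤ k := by exact_mod_cast hB x
        exact h5.trans h4
      · exact h2 ⟨x, hxL⟩

/-- DECOMPOSITION: divisibility of a constrained sum with bounds at most `k` -/
theorem ZB_dvd_upL {k b m : ℕ} {B : Q → ℕ} (hB : ∀ x, B x ≤ k)
    (h : ∀ L : Finset Q, (∀ x y, x ≤ y → x ∈ L → y ∈ L) → (∀ x, B x = k → x ∈ L) →
      ∀ c, c + ∑ x ∈ L, min k (lev x - i) ≤ m → (1 + X : ℤ[X]) ^ b ∣ Z {x // x ∈ L} (i + k) c)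
    {n : ℕ} (hn : n ≤ m) : (1 + X : ℤ[X]) ^ b ∣ ZB i ∅ 0 B n := by
  classical
  rw [ZB_eq_SC]
  rw [SC_fiber _ (upL i k) (upsF fun L => ∀ x, B x = k → x ∈ L) (fun e F hV => ?_) n]
  · refine Finset.dvd_sum fun L hL => ?_
    rw [mem_upsF] at hL
    rw [SC_pieceB i k hB hL.1]
    refine Finset.dvd_sum fun ab hab => ?_
    rw [HasAntidiagonal.mem_antidiagonal] at hab
    refine dvd_mul_of_dvd_left ?_ _
    rcases Nat.lt_or_ge ab.1 (cw {x // x ∈ L} i k) with h2 | h2
    · rw [ZB_const_zero h2]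
      exact dvd_zero _
    · obtain ⟨c, hc⟩ := Nat.exists_eq_add_of_le' h2
      rw [hc, ZB_const]
      rw [cw_subtype hL.1] at hc
      exact h L hL.1 hL.2 c (by omega)
  · rw [cst_empty_iff] at hV
    rw [mem_upsF]
    refine ⟨fun x y hxy hx => upL_up hV.1 hxy hx, fun x hx => ?_⟩
    rw [mem_upL]
    by_cases hxF : x ∈ F
    · exact Or.inl hxF
    · right
      have := hV.2 x hxF
      rwa [hx] at this

end Dec

end Pool.Agent.GaussPoset
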