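import Pool.Agent.W_448bf_h61.BC
import Pool.Agent.W_448cl_h67.ClK
import Pool.Agent.W_448wd_h84.WdH

/-!
Order two of parts of strips from the evaluator (MP_448cb3_co, S7, window 4, block BF).
-/

namespace Pool.Agent.GaussPoset

set_option linter.unusedSectionVars false

open Polynomial Finset Wd

universe u

variable {P : Type u} [Fintype P] [PartialOrder P] [DecidableEq P] {r i j : ℕ}
variable {t : P} {lo hi : ℕ → ℕ} {e : ℕ → ℕ → P}

lemma getD_drop (l : List ℕ) (b k : ℕ) : (l.drop b).getD k 0 = l.getD (b + k) 0 := by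
  rw [List.getD_eq_getElem?_getD, List.getD_eq_getElem?_getD, List.getElem?_drop]

/-- a part of the strip given by rows -/
structure StS (j : ℕ) (t : P) (lo hi : ℕ → ℕ) (e : ℕ → ℕ → P) (C : Finset P)
    (LL HH : List ℕ) : Prop where
  sub : ∀ z ∈ C, z ≤ t ∧ lev z ≤ j
  up : ∀ x y, x ≤ y → x ∈ C → y ∈ C
  mem : ∀ l a, l ≤ j → lo l ≤ a → a ≤ hi l → (e l a ∈ C ↔ LL.getD l 0 ≤ a ∧ a ≤ HH.getD l 0)
  row : ∀ l, l ≤ j → lo l ≤ LL.getD l 0 ∧ HH.getD l 0 ≤ hi l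

/-- ORDER TWO from the evaluator -/
theorem StS.dvd {C : Finset P} {LL HH : List ℕ} (S : StS j t lo hi e C LL HH) (H : Gr P r)
    (hc : Cp.Comp j t lo hi e) {base R s N : ℕ} (hR : base + R = j + 1) (hs : s < R)
    (hN : N ≤ s) (hN32 : N < 32)
    (hfull : ∀ l a, l ≤ base + s → lo l ≤ a → a ≤ hi l → e l a ∈ C)
    (hz : Win.Ev.zer (LL.drop base) (HH.drop base) R s N = true) {c : ℕ} (hcN : c ≤ N) :
    (1 + X : ℤ[X]) ^ 2 ∣ Z {x // x ∈ C} (base + s) c := by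
  have hpart : Win.Part (base + s) C := by
    refine ⟨fun h1 h2 => S.up _ _ h2.le h1, fun {x y} h1 h2 h3 => ?_⟩
    have hl := (H.covBy_iff.1 h3).2
    have hyt := (S.sub y h1).1
    obtain ⟨a, g1, g2, g3⟩ := hc.surj x (h3.le.trans hyt) (by omega)
    rw [← g3]
    exact hfull _ _ (by omega) g1 g2
  have Lc : Win.Ev.LocS P r j t lo hi e C (base + s) base R s (LL.drop base) (HH.drop base) := by
    refine ⟨H, hc, hpart, fun z hz => ?_, fun k hk => ?_, fun k a hk h1 h2 => ?_, rfl, hs,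
      by omega⟩
    · have := S.sub z hz
      exact ⟨this.1, by omega⟩
    · rw [getD_drop, getD_drop]
      exact S.row _ (by omega)
    · rw [getD_drop, getD_drop]
      exact S.mem _ _ (by omega) h1 h2
  unfold Win.Ev.zer at hz
  simp only [Bool.and_eq_true] at hz
  obtain ⟨⟨z1, z2⟩, z3⟩ := hz
  have z4 := List.all_eq_true.1 z3 c (List.mem_range.2 (by omega))
  simp only [Bool.and_eq_true, decide_eq_true_eq] at z4
  exact dvd_Z_of_ZC H Lc.hir hpart (Lc.dvd z1 z2 (by omega) (Or.inr (by omega)) z4.1 z4.2)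

/-- the cells of the rows -/
def cellsR (j : ℕ) (LL HH : List ℕ) : Finset (ℕ × ℕ) :=
  ((range (j + 1)) ×ˢ (range 6)).filter (fun p => LL.getD p.1 0 ≤ p.2 ∧ p.2 ≤ HH.getD p.1 0)

/-- the cost of a part -/
lemma StS.cost {C : Finset P} {LL HH : List ℕ} (S : StS j t lo hi e C LL HH)
    (hc : Cp.Comp j t lo hi e) (f : ℕ → ℕ) :
    ∑ p ∈ cellsR j LL HH, f p.1 ≤ ∑ x ∈ C, f (lev x) := by
  classical
  have hp : ∀ p ∈ cellsR j LL HH, p.1 ≤ j ∧ lo p.1 ≤ p.2 ∧ p.2 ≤ hi p.1 ∧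
      LL.getD p.1 0 ≤ p.2 ∧ p.2 ≤ HH.getD p.1 0 := by
    intro p hp
    unfold cellsR at hp
    rw [mem_filter, mem_product, mem_range, mem_range] at hp
    have := S.row p.1 (by omega)
    omega
  have h1 : ∑ p ∈ cellsR j LL HH, f p.1 =
      ∑ x ∈ (cellsR j LL HH).image (fun p => e p.1 p.2), f (lev x) := by
    rw [Finset.sum_image]
    · refine Finset.sum_congr rfl fun p hp' => ?_
      obtain ⟨g1, g2, g3, -, -⟩ := hp p hp'
      rw [hc.lev_e _ _ g1 g2 g3]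
    · intro p hp1 q hq1 hpq
      obtain ⟨g1, g2, g3, -, -⟩ := hp p hp1
      obtain ⟨k1, k2, k3, -, -⟩ := hp q hq1
      simp only at hpq
      have e1 := hc.lev_e _ _ g1 g2 g3
      have e2 := hc.lev_e _ _ k1 k2 k3
      rw [hpq, e2] at e1
      refine Prod.ext e1.symm ?_
      rw [e1] at hpq k2 k3
      exact hc.inj _ _ _ g1 g2 g3 k2 k3 hpq
  rw [h1]
  apply Finset.sum_le_sum_of_subset
  intro x hx
  rw [mem_image] at hx
  obtain ⟨p, hp', rfl⟩ := hx
  obtain ⟨g1, g2, g3, g4, g5⟩ := hp p hp'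
  exact (S.mem _ _ g1 g2 g3).2 ⟨g4, g5⟩

end Pool.Agent.GaussPoset
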