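import Pool.Agent.W_448bf_h61.BD

/-!
Block BF (MP_448cb3_co, S7, window 4): order two of `E7` with bounds at its last elements, for small
own energies, `j = 12, 14, 15`.
-/

namespace Pool.Agent.GaussPoset

set_option linter.unusedSectionVars false

open Polynomial Finset Wd Cl

universe u

variable {P : Type u} [Fintype P] [PartialOrder P] [DecidableEq P] {r i j : ℕ}
variable {t : P} {lo hi : ℕ → ℕ} {e : ℕ → ℕ → P}

/-- reduction of a constrained sum over an up-closed set -/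
theorem ZB_low {N : Finset P} (hN : ∀ x y, x ≤ y → x ∈ N → y ∈ N) {B : {x : P // x ∈ N} → ℕ}
    {k b m : ℕ} (hB : ∀ x, B x ≤ k)
    (h : ∀ C : Finset P, C ⊆ N → (∀ x y, x ≤ y → x ∈ C → y ∈ C) →
      (∀ x : {x : P // x ∈ N}, B x = k → (x : P) ∈ C) → ∀ c,
      c + ∑ x ∈ C, min k (lev x - i) ≤ m → (1 + X : ℤ[X]) ^ b ∣ Z {x // x ∈ C} (i + k) c)
    {n : ℕ} (hn : n ≤ m) : (1 + X : ℤ[X]) ^ b ∣ ZB i ∅ 0 B n := by
  classical
  refine ZB_dvd_upL hB (fun L hL hBL c hc => ?_) hn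
  have hmem : ∀ x : P, x ∈ L.map (Function.Embedding.subtype _) ↔ ∃ hx : x ∈ N, ⟨x, hx⟩ ∈ L := by
    intro x
    rw [mem_map]
    constructor
    · rintro ⟨y, hy, rfl⟩
      exact ⟨y.2, hy⟩
    · rintro ⟨hx, hxL⟩
      exact ⟨_, hxL, rfl⟩
  have h1 := h (L.map (Function.Embedding.subtype _)) ?_ ?_ ?_ c ?_
  · rw [Z_iso (subIso hmem)]
    exact h1
  · intro x hx
    obtain ⟨hx1, -⟩ := (hmem x).1 hx
    exact hx1
  · intro x y hxy hx
    obtain ⟨hx1, hx2⟩ := (hmem x).1 hx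
    have hy1 := hN x y hxy hx1
    exact (hmem y).2 ⟨hy1, hL ⟨x, hx1⟩ ⟨y, hy1⟩ hxy hx2⟩
  · intro x hx
    exact (hmem x).2 ⟨x.2, hBL x hx⟩
  · rw [Finset.sum_map]
    have : ∑ x ∈ L, min k (lev x - i) =
        ∑ x ∈ L, min k (lev ((Function.Embedding.subtype (fun x => x ∈ N)) x) - i) := by
      refine Finset.sum_congr rfl fun x _ => ?_
      rw [lev_subtype (p := fun x => x ∈ N) hN x]
      rfl
    rw [← this]
    exact hc

/-- the cells above the last one -/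
lemma above_last (C : Cp.Comp j t lo hi e) (D : WordD j 4 w7 lo hi) (H : Gr P r)
    (hg : ∀ l, l < j → Win.Good P l) (ht : lev t = 0) (h5 : losW 4 w7 j ≤ 5 ∧ 5 ≤ hisW 4 w7 j)
    {l a : ℕ} (hl : l ≤ j) (hla : (upI (losW 4 w7) (hisW 4 w7) j 5 (j - l)).1 ≤ a ∧
      a ≤ (upI (losW 4 w7) (hisW 4 w7) j 5 (j - l)).2) : e j 5 ≤ e l a := by
  obtain ⟨r1, r2⟩ := D.rows C
  have h1 := upI_congr (L := losW 4 w7) (H := hisW 4 w7) (lo := lo) (hi := hi) (B := 0)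
    (N := j) (s := 5) (fun n hn => by rw [Nat.zero_add]; exact (r1 n hn).symm)
    (fun n hn => by rw [Nat.zero_add]; exact (r2 n hn).symm) (j - l) (by omega)
  rw [Nat.zero_add] at h1
  rw [h1] at hla
  have g1 := r1 j le_rfl
  have g2 := r2 j le_rfl
  have h2 := upI_spec C H hg ht (s := 5) (by omega) (by omega) (j - l) (by omega)
  rw [show j - (j - l) = l by omega] at h2
  have h3 := C.lev_e l a hl (by omega) (by omega)
  exact (h2.2 _ h3).2 ⟨a, hla.1, hla.2, rfl⟩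

section Twelve

/-- rows of the whole component -/
def bfLN : List ℕ := [0, 0, 0, 0, 0, 0, 1, 2, 2, 3, 3, 3, 4]
/-- rows of the whole component -/
def bfHN : List ℕ := [0, 0, 0, 0, 1, 1, 2, 3, 4, 4, 4, 4, 5]
/-- rows of the elements above `(12, 5)` -/
def bfLU : List ℕ := [0, 0, 0, 0, 0, 0, 1, 2, 2, 3, 3, 4, 5]
/-- rows without `(12, 4)` -/
def bfL1 : List ℕ := [0, 0, 0, 0, 0, 0, 1, 2, 2, 3, 3, 3, 5]

lemma up12 : ∀ l < 13, ∀ a < 6, (losW 4 w7 l ≤ a ∧ a ≤ hisW 4 w7 l ∧ ¬ (l = 11 ∧ a = 3) ∧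
    ¬ (l = 12 ∧ a = 4)) → (upI (losW 4 w7) (hisW 4 w7) 12 5 (12 - l)).1 ≤ a ∧
      a ≤ (upI (losW 4 w7) (hisW 4 w7) 12 5 (12 - l)).2 := by decide +kernel

lemma rows12 : ∀ l < 13, losW 4 w7 l = bfLN.getD l 0 ∧ hisW 4 w7 l = bfHN.getD l 0 ∧
    bfHN.getD l 0 < 6 := by decide +kernel

lemma rowsU0 : ∀ l < 13, bfLN.getD l 0 ≤ bfLU.getD l 0 := by decide +kernel

/-- the two exceptional cells -/
def bfexQ (l a : ℕ) : Bool := (decide (l = 11) && decide (a = 3)) || (decide (l = 12) && decide (a = 4))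

lemma exQ_iff {l a : ℕ} : bfexQ l a = false ↔ ¬ (l = 11 ∧ a = 3) ∧ ¬ (l = 12 ∧ a = 4) := by
  unfold bfexQ
  simp only [Bool.or_eq_false_iff, Bool.and_eq_false_iff, decide_eq_false_iff_not]
  omega

lemma rowsU2 : ∀ l < 13, ∀ a < 6, (bfLN.getD l 0 ≤ a ∧ a ≤ bfHN.getD l 0) →
    (bfLU.getD l 0 ≤ a ↔ bfexQ l a = false) := by decide +kernel

lemma rowsU1 (l : ℕ) (hl : l < 13) (a : ℕ) (ha : a < 6)
    (h : bfLN.getD l 0 ≤ a ∧ a ≤ bfHN.getD l 0) :
    (bfLU.getD l 0 ≤ a ↔ (¬ (l = 11 ∧ a = 3) ∧ ¬ (l = 12 ∧ a = 4))) :=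
  (rowsU2 l hl a ha h).trans exQ_iff

lemma rows10 : ∀ l < 13, bfLN.getD l 0 ≤ bfL1.getD l 0 := by decide +kernel

lemma rows11 : ∀ l < 13, ∀ a < 6, (bfLN.getD l 0 ≤ a ∧ a ≤ bfHN.getD l 0) →
    (bfL1.getD l 0 ≤ a ↔ ¬ (l = 12 ∧ a = 4)) := by decide +kernel

lemma cost5 : ∑ p ∈ cellsR 12 bfLN bfHN, min 5 (p.1 - 4) = 64 ∧
    ∑ p ∈ cellsR 12 bfL1 bfHN, min 5 (p.1 - 4) = 59 ∧
    ∑ p ∈ cellsR 12 bfLU bfHN, min 5 (p.1 - 4) = 54 := by decide +kernel

lemma cost6 : ∑ p ∈ cellsR 12 bfLN bfHN, min 6 (p.1 - 4) = 70 ∧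
    ∑ p ∈ cellsR 12 bfL1 bfHN, min 6 (p.1 - 4) = 64 ∧
    ∑ p ∈ cellsR 12 bfLU bfHN, min 6 (p.1 - 4) = 58 := by decide +kernel

/-- the three possible up-sets -/
theorem three12 (D : WordD 12 4 w7 lo hi) (C : Cp.Comp 12 t lo hi e) (H : Gr P r)
    (hg : ∀ l, l < 12 → Win.Good P l) (ht : lev t = 0) {G : Finset P}
    (hsub : G ⊆ lowPart 12 t) (hup : ∀ x y, x ≤ y → x ∈ G → y ∈ G) (hG : e 12 5 ∈ G) :
    StS 12 t lo hi e G bfLN bfHN ∨ StS 12 t lo hi e G bfL1 bfHN ∨ StS 12 t lo hi e G bfLU bfHN := by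
  obtain ⟨r1, r2⟩ := D.rows C
  have hrow : ∀ l, l ≤ 12 → lo l = bfLN.getD l 0 ∧ hi l = bfHN.getD l 0 ∧ bfHN.getD l 0 < 6 := by
    intro l hl
    have h1 := rows12 l (by omega)
    rw [r1 l hl, r2 l hl]
    exact h1
  have hin : ∀ l a, l ≤ 12 → lo l ≤ a → a ≤ hi l → ¬ (l = 11 ∧ a = 3) → ¬ (l = 12 ∧ a = 4) →
      e l a ∈ G := by
    intro l a hl h1 h2 h3 h4
    have h0 := hrow l hl
    have h5 := up12 l (by omega) a (by omega) ⟨by rw [← r1 l hl]; exact h1,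
      by rw [← r2 l hl]; exact h2, h3, h4⟩
    exact hup _ _ (above_last C D H hg ht (by decide +kernel) hl h5) hG
  have hs : ∀ z ∈ G, z ≤ t ∧ lev z ≤ 12 := fun z hz => mem_lowPart.mp (hsub hz)
  have c3 : e 12 4 ≤ e 11 3 := by
    have h1 := hrow 11 (by omega)
    have h2 := hrow 12 (by omega)
    have g1 : bfLN.getD 11 0 = 3 ∧ bfHN.getD 11 0 = 4 := by decide
    have g2 : bfLN.getD 12 0 = 4 ∧ bfHN.getD 12 0 = 5 := by decide
    have k1 : lo (11 + 1) ≤ 4 ∧ 4 ≤ hi (11 + 1) := by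
      show lo 12 ≤ 4 ∧ 4 ≤ hi 12
      omega
    exact ((C.cov 11 4 3 (by omega) k1.1 k1.2 (by omega) (by omega)).2
      (Or.inr rfl)).le
  by_cases h4 : e 12 4 ∈ G
  · left
    have h3 : e 11 3 ∈ G := hup _ _ c3 h4
    refine ⟨hs, hup, fun l a hl h1 h2 => ?_, fun l hl => ?_⟩
    · have h0 := hrow l hl
      constructor
      · intro _
        omega
      · intro _
        by_cases k1 : l = 11 ∧ a = 3
        · rw [k1.1, k1.2]; exact h3
        · by_cases k2 : l = 12 ∧ a = 4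
          · rw [k2.1, k2.2]; exact h4
          · exact hin l a hl h1 h2 k1 k2
    · have h0 := hrow l hl
      omega
  · by_cases h3 : e 11 3 ∈ G
    · right; left
      refine ⟨hs, hup, fun l a hl h1 h2 => ?_, fun l hl => ?_⟩
      · have h0 := hrow l hl
        have h5 := rows11 l (by omega) a (by omega) ⟨by omega, by omega⟩
        constructor
        · intro hm
          refine ⟨h5.2 ?_, by omega⟩
          rintro ⟨rfl, rfl⟩
          exact h4 hm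
        · rintro ⟨hm, -⟩
          have h6 := h5.1 hm
          by_cases k1 : l = 11 ∧ a = 3
          · rw [k1.1, k1.2]; exact h3
          · exact hin l a hl h1 h2 k1 h6
      · have h0 := hrow l hl
        have h5 := rows10 l (by omega)
        omega
    · right; right
      refine ⟨hs, hup, fun l a hl h1 h2 => ?_, fun l hl => ?_⟩
      · have h0 := hrow l hl
        have h5 := rowsU1 l (by omega) a (by omega) ⟨by omega, by omega⟩
        constructor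
        · intro hm
          refine ⟨h5.2 ⟨?_, ?_⟩, by omega⟩
          · rintro ⟨rfl, rfl⟩
            exact h3 hm
          · rintro ⟨rfl, rfl⟩
            exact h4 hm
        · rintro ⟨hm, -⟩
          have h6 := h5.1 hm
          exact hin l a hl h1 h2 h6.1 h6.2
      · have h0 := hrow l hl
        have h5 := rowsU0 l (by omega)
        omega

/-- membership below the last rows -/
lemma StS.full12 {G : Finset P} {LL : List ℕ} (S : StS 12 t lo hi e G LL bfHN)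
    (D : WordD 12 4 w7 lo hi) (C : Cp.Comp 12 t lo hi e)
    (hL : ∀ l < 11, LL.getD l 0 = bfLN.getD l 0) : ∀ l a, l ≤ 10 → lo l ≤ a → a ≤ hi l →
      e l a ∈ G := by
  obtain ⟨r1, r2⟩ := D.rows C
  intro l a hl h1 h2
  have h3 := rows12 l (by omega)
  have h4 := hL l (by omega)
  have h5 := r1 l (by omega)
  have h6 := r2 l (by omega)
  exact (S.mem l a (by omega) h1 h2).2 ⟨by omega, by omega⟩

/-- **BF, `j = 12`, bound 5 at `(12, 5)`**, any bounds `≤ 5` elsewhere -/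
theorem bf12_5 (D : WordD 12 4 w7 lo hi) (C : Cp.Comp 12 t lo hi e) (H : Gr P r)
    (hg : ∀ l, l < 12 → Win.Good P l) (ht : lev t = 0)
    {B : {x : P // x ∈ lowPart 12 t} → ℕ} (hB : ∀ x, B x ≤ 5)
    (h5 : ∀ x : {x : P // x ∈ lowPart 12 t}, (x : P) = e 12 5 → B x = 5) {n : ℕ} (hn : n ≤ 61) :
    (1 + X : ℤ[X]) ^ 2 ∣ ZB 4 ∅ 0 B n := by
  have hlow : ∀ x y : P, x ≤ y → x ∈ lowPart 12 t → y ∈ lowPart 12 t :=
    fun _ _ hxy hx => lowPart_up H hg ht hxy hx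
  obtain ⟨r1, r2⟩ := D.rows C
  have hr12 := rows12 12 (by omega)
  have g2 : bfLN.getD 12 0 = 4 ∧ bfHN.getD 12 0 = 5 := by decide
  have q1 := r1 12 le_rfl
  have q2 := r2 12 le_rfl
  have hmem : e 12 5 ∈ lowPart 12 t := mem_lowPart.mpr
    ⟨C.le_t 12 5 le_rfl (by omega) (by omega),
      (C.lev_e 12 5 le_rfl (by omega) (by omega)).le⟩
  refine ZB_low hlow hB (fun G hGs hGu hGB c hc => ?_) hn
  have hG : e 12 5 ∈ G := hGB ⟨_, hmem⟩ (h5 _ rfl)
  rcases three12 D C H hg ht hGs hGu hG with S | S | S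
  · have := S.cost C (fun l => min 5 (l - 4))
    rw [cost5.1] at this
    omega
  · have h1 := S.cost C (fun l => min 5 (l - 4))
    rw [cost5.2.1] at h1
    have hf := S.full12 D C (by decide)
    exact S.dvd H C (base := 7) (R := 6) (s := 2) (N := 2) rfl (by omega) le_rfl (by omega)
      (fun l a hl => hf l a (by omega)) Win.Ev.zL1 (c := c) (by omega)
  · have h1 := S.cost C (fun l => min 5 (l - 4))
    rw [cost5.2.2] at h1
    have hf := S.full12 D C (by decide)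
    exact S.dvd H C (base := 2) (R := 11) (s := 7) (N := 7) rfl (by omega) le_rfl (by omega)
      (fun l a hl => hf l a (by omega)) Win.Ev.zL0 (c := c) (by omega)

/-- **BF, `j = 12`, bound 6 at `(12, 5)`**, any bounds `≤ 6` elsewhere -/
theorem bf12_6 (D : WordD 12 4 w7 lo hi) (C : Cp.Comp 12 t lo hi e) (H : Gr P r)
    (hg : ∀ l, l < 12 → Win.Good P l) (ht : lev t = 0)
    {B : {x : P // x ∈ lowPart 12 t} → ℕ} (hB : ∀ x, B x ≤ 6)
    (h5 : ∀ x : {x : P // x ∈ lowPart 12 t}, (x : P) = e 12 5 → B x = 6) {n : ℕ} (hn : n ≤ 60) :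
    (1 + X : ℤ[X]) ^ 2 ∣ ZB 4 ∅ 0 B n := by
  have hlow : ∀ x y : P, x ≤ y → x ∈ lowPart 12 t → y ∈ lowPart 12 t :=
    fun _ _ hxy hx => lowPart_up H hg ht hxy hx
  obtain ⟨r1, r2⟩ := D.rows C
  have hr12 := rows12 12 (by omega)
  have g2 : bfLN.getD 12 0 = 4 ∧ bfHN.getD 12 0 = 5 := by decide
  have q1 := r1 12 le_rfl
  have q2 := r2 12 le_rfl
  have hmem : e 12 5 ∈ lowPart 12 t := mem_lowPart.mpr
    ⟨C.le_t 12 5 le_rfl (by omega) (by omega),
      (C.lev_e 12 5 le_rfl (by omega) (by omega)).le⟩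
  refine ZB_low hlow hB (fun G hGs hGu hGB c hc => ?_) hn
  have hG : e 12 5 ∈ G := hGB ⟨_, hmem⟩ (h5 _ rfl)
  rcases three12 D C H hg ht hGs hGu hG with S | S | S
  · have := S.cost C (fun l => min 6 (l - 4))
    rw [cost6.1] at this
    omega
  · have := S.cost C (fun l => min 6 (l - 4))
    rw [cost6.2.1] at this
    omega
  · have h1 := S.cost C (fun l => min 6 (l - 4))
    rw [cost6.2.2] at h1
    have hf := S.full12 D C (by decide)
    exact S.dvd H C (base := 8) (R := 5) (s := 2) (N := 2) rfl (by omega) le_rfl (by omega)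
      (fun l a hl => hf l a (by omega)) Win.Ev.zL0' (c := c) (by omega)

end Twelve

section Full

/-- rows for `j = 14` -/
def bfLG : List ℕ := [0, 0, 0, 0, 0, 0, 1, 2, 2, 3, 3, 3, 4, 5, 5]
/-- rows for `j = 14` -/
def bfHG : List ℕ := [0, 0, 0, 0, 1, 1, 2, 3, 4, 4, 4, 4, 5, 5, 5]
/-- rows for `j = 15` -/
def bfLF : List ℕ := [0, 0, 0, 0, 0, 0, 1, 2, 2, 3, 3, 3, 4, 5, 5, 5]
/-- rows for `j = 15` -/
def bfHF : List ℕ := [0, 0, 0, 0, 1, 1, 2, 3, 4, 4, 4, 4, 5, 5, 5, 5]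

lemma rows14 : ∀ l < 15, losW 4 w7 l = bfLG.getD l 0 ∧ hisW 4 w7 l = bfHG.getD l 0 ∧
    bfHG.getD l 0 < 6 := by decide +kernel

lemma rows15 : ∀ l < 16, losW 4 w7 l = bfLF.getD l 0 ∧ hisW 4 w7 l = bfHF.getD l 0 ∧
    bfHF.getD l 0 < 6 := by decide +kernel

lemma up14 : ∀ l < 15, ∀ a < 6, losW 4 w7 l ≤ a → a ≤ hisW 4 w7 l →
    (upI (losW 4 w7) (hisW 4 w7) 14 5 (14 - l)).1 ≤ a ∧
      a ≤ (upI (losW 4 w7) (hisW 4 w7) 14 5 (14 - l)).2 := by decide +kernel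

lemma up15 : ∀ l < 16, ∀ a < 6, losW 4 w7 l ≤ a → a ≤ hisW 4 w7 l →
    (upI (losW 4 w7) (hisW 4 w7) 15 5 (15 - l)).1 ≤ a ∧
      a ≤ (upI (losW 4 w7) (hisW 4 w7) 15 5 (15 - l)).2 := by decide +kernel

lemma costF : ∑ p ∈ cellsR 14 bfLG bfHG, min 7 (p.1 - 4) = 88 ∧
    ∑ p ∈ cellsR 15 bfLF bfHF, min 8 (p.1 - 4) = 100 := by decide +kernel

/-- everything is above the last cell -/
theorem stS_full (D : WordD j 4 w7 lo hi) (C : Cp.Comp j t lo hi e) {LL HH : List ℕ}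
    (hrows : ∀ l < j + 1, losW 4 w7 l = LL.getD l 0 ∧ hisW 4 w7 l = HH.getD l 0 ∧
      HH.getD l 0 < 6) {G : Finset P} (hsub : G ⊆ lowPart j t) (hup : ∀ x y, x ≤ y → x ∈ G → y ∈ G)
    (hall : ∀ l a, l ≤ j → lo l ≤ a → a ≤ hi l → e l a ∈ G) : StS j t lo hi e G LL HH := by
  obtain ⟨r1, r2⟩ := D.rows C
  have hrow : ∀ l, l ≤ j → lo l = LL.getD l 0 ∧ hi l = HH.getD l 0 := by
    intro l hl
    have h1 := hrows l (by omega)
    rw [r1 l hl, r2 l hl]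
    exact ⟨h1.1, h1.2.1⟩
  refine ⟨fun z hz => mem_lowPart.mp (hsub hz), hup, fun l a hl h1 h2 => ?_, fun l hl => ?_⟩
  · have h0 := hrow l hl
    exact ⟨fun _ => by omega, fun _ => hall l a hl h1 h2⟩
  · have h0 := hrow l hl
    omega

lemma all14 (D : WordD 14 4 w7 lo hi) (C : Cp.Comp 14 t lo hi e) (H : Gr P r)
    (hg : ∀ l, l < 14 → Win.Good P l) (ht : lev t = 0) {G : Finset P}
    (hup : ∀ x y, x ≤ y → x ∈ G → y ∈ G) (hG : e 14 5 ∈ G) :
    ∀ l a, l ≤ 14 → lo l ≤ a → a ≤ hi l → e l a ∈ G := by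
  obtain ⟨r1, r2⟩ := D.rows C
  intro l a hl h1 h2
  have h3 := rows14 l (by omega)
  have g1 := r1 l hl
  have g2 := r2 l hl
  have h4 := up14 l (by omega) a (by omega) (by omega) (by omega)
  exact hup _ _ (above_last C D H hg ht (by decide +kernel) hl h4) hG

lemma all15 (D : WordD 15 4 w7 lo hi) (C : Cp.Comp 15 t lo hi e) (H : Gr P r)
    (hg : ∀ l, l < 15 → Win.Good P l) (ht : lev t = 0) {G : Finset P}
    (hup : ∀ x y, x ≤ y → x ∈ G → y ∈ G) (hG : e 15 5 ∈ G) :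
    ∀ l a, l ≤ 15 → lo l ≤ a → a ≤ hi l → e l a ∈ G := by
  obtain ⟨r1, r2⟩ := D.rows C
  intro l a hl h1 h2
  have h3 := rows15 l (by omega)
  have g1 := r1 l hl
  have g2 := r2 l hl
  have h4 := up15 l (by omega) a (by omega) (by omega) (by omega)
  exact hup _ _ (above_last C D H hg ht (by decide +kernel) hl h4) hG

/-- **BF, `j = 14`**, bound 7 at `(14, 5)`, any bounds `≤ 7` elsewhere -/
theorem bf14 (D : WordD 14 4 w7 lo hi) (C : Cp.Comp 14 t lo hi e) (H : Gr P r)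
    (hg : ∀ l, l < 14 → Win.Good P l) (ht : lev t = 0)
    {B : {x : P // x ∈ lowPart 14 t} → ℕ} (hB : ∀ x, B x ≤ 7)
    (h5 : ∀ x : {x : P // x ∈ lowPart 14 t}, (x : P) = e 14 5 → B x = 7) {n : ℕ} (hn : n ≤ 96) :
    (1 + X : ℤ[X]) ^ 2 ∣ ZB 4 ∅ 0 B n := by
  have hlow : ∀ x y : P, x ≤ y → x ∈ lowPart 14 t → y ∈ lowPart 14 t :=
    fun _ _ hxy hx => lowPart_up H hg ht hxy hx
  obtain ⟨r1, r2⟩ := D.rows C
  have hr := rows14 14 (by omega)
  have g2 : bfLG.getD 14 0 = 5 ∧ bfHG.getD 14 0 = 5 := by decide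
  have q1 := r1 14 le_rfl
  have q2 := r2 14 le_rfl
  have hmem : e 14 5 ∈ lowPart 14 t := mem_lowPart.mpr
    ⟨C.le_t 14 5 le_rfl (by omega) (by omega),
      (C.lev_e 14 5 le_rfl (by omega) (by omega)).le⟩
  refine ZB_low hlow hB (fun G hGs hGu hGB c hc => ?_) hn
  have hG : e 14 5 ∈ G := hGB ⟨_, hmem⟩ (h5 _ rfl)
  have hall := all14 D C H hg ht hGu hG
  have S := stS_full D C rows14 hGs hGu hall
  have h1 := S.cost C (fun l => min 7 (l - 4))
  rw [costF.1] at h1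
  exact S.dvd H C (base := 3) (R := 12) (s := 8) (N := 8) rfl (by omega) le_rfl (by omega)
    (fun l a hl => hall l a (by omega)) Win.Ev.z14 (c := c) (by omega)

/-- **BF, `j = 15`**, bound 8 at `(15, 5)`, any bounds `≤ 8` elsewhere -/
theorem bf15 (D : WordD 15 4 w7 lo hi) (C : Cp.Comp 15 t lo hi e) (H : Gr P r)
    (hg : ∀ l, l < 15 → Win.Good P l) (ht : lev t = 0)
    {B : {x : P // x ∈ lowPart 15 t} → ℕ} (hB : ∀ x, B x ≤ 8)
    (h5 : ∀ x : {x : P // x ∈ lowPart 15 t}, (x : P) = e 15 5 → B x = 8) {n : ℕ} (hn : n ≤ 103) :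
    (1 + X : ℤ[X]) ^ 2 ∣ ZB 4 ∅ 0 B n := by
  have hlow : ∀ x y : P, x ≤ y → x ∈ lowPart 15 t → y ∈ lowPart 15 t :=
    fun _ _ hxy hx => lowPart_up H hg ht hxy hx
  obtain ⟨r1, r2⟩ := D.rows C
  have hr := rows15 15 (by omega)
  have g2 : bfLF.getD 15 0 = 5 ∧ bfHF.getD 15 0 = 5 := by decide
  have q1 := r1 15 le_rfl
  have q2 := r2 15 le_rfl
  have hmem : e 15 5 ∈ lowPart 15 t := mem_lowPart.mpr
    ⟨C.le_t 15 5 le_rfl (by omega) (by omega),
      (C.lev_e 15 5 le_rfl (by omega) (by omega)).le⟩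
  refine ZB_low hlow hB (fun G hGs hGu hGB c hc => ?_) hn
  have hG : e 15 5 ∈ G := hGB ⟨_, hmem⟩ (h5 _ rfl)
  have hall := all15 D C H hg ht hGu hG
  have S := stS_full D C rows15 hGs hGu hall
  have h1 := S.cost C (fun l => min 8 (l - 4))
  rw [costF.2] at h1
  exact S.dvd H C (base := 9) (R := 7) (s := 3) (N := 3) rfl (by omega) le_rfl (by omega)
    (fun l a hl => hall l a (by omega)) Win.Ev.z15 (c := c) (by omega)

end Full

end Pool.Agent.GaussPoset
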